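import Mathlib
import Pool.Agent.W2helper51.HSC.Final

set_option autoImplicit false

/-!
# Simple connectedness is not definable in first-order homotopical logic

There are Kan complexes `X` and `Y`, both path-connected, in which the same sentences of the
one-sorted signature without function symbols are true, such that `X` is simply connected and `Y`
is not.  (They are Eilenberg–Mac Lane spaces `K(ZMod 2, 2)` and `K(ZMod 2, 1)`.)  The same
sentences are also true in all simplicial sets equivalent to them.
-/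

open CategoryTheory
open Pool.Agent.H642R3.Hom

namespace Pool.Agent.Results.MP_339d31_lc.SimplyConnectedUndefinable

open Pool.Agent.W2helper51.HSC

theorem result :
    (∃ X Y : SSet.{0}, SSet.KanComplex X ∧ SSet.KanComplex Y ∧
      SimplyConn X ∧ PathConn Y ∧ ¬ SimplyConn Y ∧
      (∀ (I : Interpretation (strOf X)) (J : Interpretation (strOf Y)) (φ : Sentence sig1),
        I.True φ ↔ J.True φ) ∧
      (∀ (X' Y' : SSet.{0}) (c : X' ⟶ X) (d : Y' ⟶ Y), Equi c → Equi d →
        ∀ φ : Sentence sig1, TrueIn X' φ ↔ TrueIn Y' φ)) ∧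
    ¬ ∃ φ : Sentence sig1, ∀ X : SSet.{0}, SSet.KanComplex X → (TrueIn X φ ↔ SimplyConn X) := by
  constructor
  · refine ⟨KK 1, KK 0, KK_kan 1, KK_kan 0, sc_one, KK_path 0, not_sc_zero, ?_, ?_⟩
    · intro I J φ
      exact (true_of_equi (Or.inr rfl) (equi_id (Or.inr rfl)) I φ).trans
        (true_of_equi (Or.inl rfl) (equi_id (Or.inl rfl)) J φ).symm
    · intro X' Y' c d hc hd φ
      exact (trueIn_iff (Or.inr rfl) hc φ).trans (trueIn_iff (Or.inl rfl) hd φ).symm
  · rintro ⟨φ, h⟩
    have h1 := (trueIn_iff (Or.inr rfl) (equi_id (Or.inr rfl)) φ).1 ((h _ (KK_kan 1)).2 sc_one)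
    exact not_sc_zero ((h _ (KK_kan 0)).1
      ((trueIn_iff (Or.inl rfl) (equi_id (Or.inl rfl)) φ).2 h1))

end Pool.Agent.Results.MP_339d31_lc.SimplyConnectedUndefinable
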